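import Pool.Agent.Run7.h528.NN.Main
import Pool.Agent.N110.CC.TP

/-!
Pseudo-effective divisors `K_X + Δ` of numerical dimension zero are numerically equivalent to exactly
one effective divisor.
-/

set_option autoImplicit false
set_option linter.overlappingInstances false
set_option linter.unusedSectionVars false

open FF Module Pool.Agent.W602.GT Pool.Agent.Y172 Pool.Agent.R887 Pool.Agent.N110
open Pool.Agent.N110.NV Pool.Agent.N492.PA Pool.Agent.N110.CC Pool.Agent.N110.DV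

namespace Run7.h528.NN

section

variable {K : Type} [Field K] [Algebra ℂ K] {N n ρ : ℕ} {y : Fin (N + 1) → K}
  {Δ : Place ℂ K → ℚ} {x : Fin n → K} {E : Fin n → Derivation ℂ K K} {c : Place ℂ K → ℤ}

/-- the converse of `Can.psef` -/
theorem can_psef_back (h : Can y x E c) (hps : PsefD y (fun P => (c P : ℚ) + Δ P)) :
    LogPsef y n Δ := by
  intro i hi q hq
  obtain ⟨m, hm, f, hf, h1⟩ := hps i hi q hq
  refine ⟨m, hm, frm x (m * q) f, fun h0 => hf ?_, frm_pluri x (m * q) f, fun P l hP hl => ?_⟩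
  · rw [← frm_self h.self (m * q) f, h0]
    rfl
  · rw [h.ord P hP _ _ (frm_pluri x (m * q) f), frm_self h.self]
    right
    have h2 := h1 P l hP hl
    push_cast
    linarith

/-- the converse of `Can.anti` -/
theorem can_anti_back (h : Can y x E c) (ht : LogAntiPsef y n Δ) :
    PsefD y (fun P => -((c P : ℚ) + Δ P)) := by
  have hc' : IsDisc y E c := h.ord
  intro i hi q hq
  obtain ⟨m, hm, ω, hω0, hω, h1⟩ := ht i hi q hq
  have hωE : ω E ≠ 0 := fun h0 => hω0 (pluri_zero h.frame hω h0)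
  refine ⟨m, hm, (ω E)⁻¹, inv_ne_zero hωE, fun P l hP hl => ?_⟩
  obtain ⟨s, hs, hs'⟩ := h1 P l hP hl
  have h2 := val_eq hc' hP hω hs' hωE
  rw [P.ord_inv]
  push_cast at h2 ⊢
  linarith

/-- nef divisors -/
theorem can_nef (hy : NormalModel y) (h : Can y x E c) (hnef : LogNef y n Δ) :
    NefD y n (fun P => (c P : ℚ) + Δ P) := by
  have hc' : IsDisc y E c := h.ord
  intro i hi q hq
  obtain ⟨m, hm, h1⟩ := hnef i hi q hq
  refine ⟨m, hm, fun Q hQ => ?_⟩
  obtain ⟨ω, hω, hg⟩ := h1 Q hQ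
  have h0 : ω E ≠ 0 := by
    intro h0
    obtain ⟨P, hP, hT⟩ := Pool.Agent.Y172.exists_through hy Q
    obtain ⟨l, hl⟩ := exists_centred hy P
    obtain ⟨-, E', -, h2, -⟩ := hg P l hP hT hl
    rw [pluri_zero h.frame hω.1 h0] at h2
    exact h2 rfl
  refine ⟨ω E, h0, fun P l hP hl => ?_, fun P l hP hT hl => ?_⟩
  · have h2 := ((h.ord P hP _ ω hω.1 _).1 (hω.2 P l hP hl)).resolve_left h0
    push_cast at h2
    linarith
  · have h2 := val_eq hc' hP hω.1 (hg P l hP hT hl) h0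
    push_cast at h2
    linarith

/-- **`K_X + Δ` of numerical dimension zero.** -/
theorem num_eff (hy : NormalModel y) (hn : Algebra.trdeg ℂ K = n) (hn0 : 0 < n)
    (hq : NeronSeveri y) (hΔ : {P | IsPrimeDivisor y P ∧ Δ P ≠ 0}.Finite)
    (hps : LogPsef y n Δ) (hnum : NumDimLt y n Δ 1) :
    ∃ D : Place ℂ K → ℚ, Effective y D ∧ NumEq y n Δ D ∧
      (∀ D', Effective y D' → NumEq y n Δ D' → ∀ P, IsPrimeDivisor y P → D' P = D P) ∧
      (LogNef y n Δ → ∀ P, IsPrimeDivisor y P → D P = 0) := by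
  obtain ⟨ρ, cl, hcl⟩ := hq
  obtain ⟨x, E, c, h⟩ := exists_can hy hn
  have hc' : IsDisc y E c := h.ord
  have hsh : sh c (fun P => (c P : ℚ) + Δ P) = Δ := by
    funext P
    unfold sh
    ring
  have hnum' : NuLt y n (fun P => (c P : ℚ) + Δ P) 1 := by
    rw [← nuLt_iff h.self h.frame hc', hsh]
    exact hnum
  obtain ⟨D, hD, hE, hu, hnef⟩ := num_effD hy hn hn0 hcl (h.finD hΔ) (h.psef hps) hnum'
  have e1 : ∀ D' : Place ℂ K → ℚ, (fun P => (c P : ℚ) + Δ P - D' P) =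
      fun P => (c P : ℚ) + (Δ P - D' P) := fun D' => by
    funext P
    ring
  have e2 : ∀ D' : Place ℂ K → ℚ, (fun P => -((c P : ℚ) + Δ P - D' P)) =
      fun P => -((c P : ℚ) + (Δ P - D' P)) := fun D' => by
    funext P
    ring
  refine ⟨D, hD, ⟨can_psef_back h ?_, h.anti ?_⟩, fun D' hD' hE' => hu D' hD' ⟨?_, ?_⟩,
    fun hn' => hnef (can_nef hy h hn')⟩
  · have := hE.1
    rwa [e1] at this
  · have := hE.2
    rwa [e2] at this
  · rw [e1]
    exact h.psef hE'.1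
  · rw [e2]
    exact can_anti_back h hE'.2

/-- the sum of a pseudo-effective divisor and an effective divisor is pseudo-effective -/
theorem psef_of_num {D : Place ℂ K → ℚ} (hD : Effective y D)
    (hE : LogPsef y n (fun P => Δ P - D P)) : LogPsef y n Δ := by
  intro i hi q hq
  obtain ⟨m, hm, ω, hω0, hω, h1⟩ := hE i hi q hq
  refine ⟨m, hm, ω, hω0, hω, fun P l hP hl E' hE' => ?_⟩
  rcases h1 P l hP hl E' hE' with h | h
  · exact Or.inl h
  · right
    have h2 := mul_nonneg (Nat.cast_nonneg (α := ℚ) (m * q)) (hD.1 P hP)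
    linarith

/-- **Nef divisors `K_X + Δ` of numerical dimension zero are numerically trivial.** -/
theorem nef_numTrivial (hy : NormalModel y) (hn : Algebra.trdeg ℂ K = n) (hn0 : 0 < n)
    (hq : NeronSeveri y) (hΔ : {P | IsPrimeDivisor y P ∧ Δ P ≠ 0}.Finite)
    (hnef : LogNef y n Δ) (hnum : NumDimLt y n Δ 1) : NumTrivial y n Δ := by
  have hps := NV.psef_of_nef hy hn hn0 hnef
  obtain ⟨D, -, hE, -, h0⟩ := num_eff hy hn hn0 hq hΔ hps hnum
  refine ⟨hps, fun i hi q hq => ?_⟩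
  obtain ⟨m, hm, ω, hω0, hω, h1⟩ := hE.2 i hi q hq
  refine ⟨m, hm, ω, hω0, hω, fun P l hP hl => ?_⟩
  obtain ⟨s, hs, h2⟩ := h1 P l hP hl
  refine ⟨s, ?_, h2⟩
  have h3 : s ≤ (m : ℚ) * P.ord (y i / y l) - m * q * (Δ P - D P) := hs
  rwa [h0 hnef P hP, sub_zero] at h3

/-- nef divisors are pseudo-effective -/
theorem psefD_of_nefD (hy : NormalModel y) (hn : Algebra.trdeg ℂ K = n) (hn0 : 0 < n)
    {L : Place ℂ K → ℚ} (hnef : NefD y n L) : PsefD y L := by
  intro i hi q hq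
  obtain ⟨m, hm, h⟩ := hnef i hi q hq
  obtain ⟨Q, hQ⟩ := exists_divisorial hy hn hn0
  obtain ⟨g, hg0, h1, -⟩ := h Q hQ
  refine ⟨m, hm, g, hg0, fun P l hP hl => ?_⟩
  have h2 := h1 P l hP hl
  linarith

/-- **Nef divisors of numerical dimension zero are numerically trivial.** -/
theorem nefD_trivial (hy : NormalModel y) (hn : Algebra.trdeg ℂ K = n) (hn0 : 0 < n)
    (hq : NeronSeveri y) {L : Place ℂ K → ℚ} (hL : {P | IsPrimeDivisor y P ∧ L P ≠ 0}.Finite)
    (hnef : NefD y n L) (hnum : NuLt y n L 1) : NumEqD y L 0 := by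
  obtain ⟨ρ, cl, hcl⟩ := hq
  obtain ⟨D, -, hE, -, h0⟩ := num_effD hy hn hn0 hcl hL (psefD_of_nefD hy hn hn0 hnef) hnum
  have h1 := h0 hnef
  refine ⟨fun i hi q hq => ?_, fun i hi q hq => ?_⟩
  · obtain ⟨m, hm, f, hf, h2⟩ := hE.1 i hi q hq
    refine ⟨m, hm, f, hf, fun P l hP hl => ?_⟩
    have h3 : (0 : ℚ) ≤ P.ord f + m * (q * (L P - D P) + P.ord (y i / y l)) := h2 P l hP hl
    rw [h1 P hP] at h3
    exact h3
  · obtain ⟨m, hm, f, hf, h2⟩ := hE.2 i hi q hq
    refine ⟨m, hm, f, hf, fun P l hP hl => ?_⟩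
    have h3 : (0 : ℚ) ≤ P.ord f + m * (q * -(L P - D P) + P.ord (y i / y l)) := h2 P l hP hl
    rw [h1 P hP] at h3
    exact h3

end

end Run7.h528.NN
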