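import Pool.Agent.N110.CC.TDefs
import Pool.Agent.N110.CC.RDefs

/-!
Definitions: numerical equivalence of divisors.
-/

set_option autoImplicit false

open FF Pool.Agent.W602.GT Pool.Agent.Y172 Pool.Agent.R887 Pool.Agent.N110

namespace Run7.h528.NN

section

variable {K : Type} [Field K] [Algebra ℂ K] {N : ℕ}

/-- The divisors `L` and `D` on `X` are numerically equivalent: `L - D` and `D - L` are
pseudo-effective. -/
def NumEqD (y : Fin (N + 1) → K) (L D : Place ℂ K → ℚ) : Prop :=
  CC.PsefD y (fun P => L P - D P) ∧ CC.PsefD y (fun P => -(L P - D P))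

/-- The divisor `K_X + Δ` is numerically equivalent to `D`, `n` being the dimension of `X`:
`K_X + Δ - D` and its negative are pseudo-effective. -/
def NumEq (y : Fin (N + 1) → K) (n : ℕ) (Δ D : Place ℂ K → ℚ) : Prop :=
  LogPsef y n (fun P => Δ P - D P) ∧ CC.LogAntiPsef y n (fun P => Δ P - D P)

/-- The divisor `K_X + Δ` is numerically trivial, `n` being the dimension of `X`: it and its negative
are pseudo-effective. -/
def NumTrivial (y : Fin (N + 1) → K) (n : ℕ) (Δ : Place ℂ K → ℚ) : Prop :=
  LogPsef y n Δ ∧ CC.LogAntiPsef y n Δ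

end

end Run7.h528.NN
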