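import Pool.Agent.Run7.h528.NN.Triv

/-!
The components of the fixed part of `q L + H` are numerically independent.
-/

set_option autoImplicit false
set_option linter.overlappingInstances false
set_option linter.unusedSectionVars false

open FF Module Pool.Agent.W602.GT Pool.Agent.Y172 Pool.Agent.R887 Pool.Agent.N110
open Pool.Agent.N110.NV Pool.Agent.N492.PA

namespace Run7.h528.NN

section

variable {K : Type} [Field K] [Algebra ℂ K] {N n ρ : ℕ} {y : Fin (N + 1) → K}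
  {c : Place ℂ K → Fin ρ → ℤ} {lam Hy : Place ℂ K → ℚ}

/-- **The numerical classes of the components of the fixed part are linearly independent.** -/
theorem bs_indepN (hy : NormalModel y) (hn : Algebra.trdeg ℂ K = n) (hn0 : 0 < n)
    (hc : NumClasses y c) {i : Fin (N + 1)} (hi : y i ≠ 0) (hHe : Effective y Hy)
    (hHP : ∀ P l, IsPrimeDivisor y P → Centred y l P → Hy P = P.ord (y i / y l))
    {q m₁ : ℕ} (hm₁ : 1 ≤ m₁) {g : K} (hg : g ∈ Sec y lam Hy q m₁) {m₂ : ℕ} (hm₂ : 1 ≤ m₂)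
    {g₂ : K} (hg₂ : g₂ ∈ Sec y lam Hy (2 * q) m₂) :
    LinearIndependent ℚ (fun P : Bs y lam Hy q => cQ c P) := by
  classical
  rw [linearIndependent_iff']
  intro s a ha i0 hi0
  by_contra hne
  -- the relation
  obtain ⟨D, hDf, hD0, hDn, j0, hj0, hj0n⟩ : ∃ D : Place ℂ K → ℚ, Fin0 y D ∧
      cls y (cQ c) D = 0 ∧ (∀ Q, D Q ≠ 0 → ∃ P ∈ s, P.1 = Q) ∧ ∃ j0 ∈ s, D j0.1 < 0 := by
    have key : ∀ b : Bs y lam Hy q → ℚ, (∑ P ∈ s, b P • cQ c P.1) = 0 → b i0 < 0 →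
        ∃ D : Place ℂ K → ℚ, Fin0 y D ∧
          cls y (cQ c) D = 0 ∧ (∀ Q, D Q ≠ 0 → ∃ P ∈ s, P.1 = Q) ∧ ∃ j0 ∈ s, D j0.1 < 0 := by
      intro b hb hb0
      refine ⟨fun Q => ∑ P ∈ s, if Q = P.1 then b P else 0,
        Fin0.sum s fun P _ => fin_single P.1 (b P), ?_, ?_, i0, hi0, ?_⟩
      · rw [cls_sum s fun P _ => fin_single P.1 (b P), ← hb]
        exact Finset.sum_congr rfl fun P _ => cls_single P.2.1 (b P)
      · intro Q hQ
        by_contra hcon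
        push Not at hcon
        apply hQ
        exact Finset.sum_eq_zero fun P hP => if_neg fun h => hcon P hP h.symm
      · change (∑ P' ∈ s, if i0.1 = P'.1 then b P' else 0) < 0
        rw [Finset.sum_eq_single i0]
        · rwa [if_pos rfl]
        · intro b _ hb
          rw [if_neg fun h => hb (Subtype.ext h).symm]
        · intro h
          exact absurd hi0 h
    rcases lt_or_gt_of_ne hne with h | h
    · exact key a ha h
    · refine key (fun P => -a P) ?_ (by linarith)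
      have h1 : (∑ P ∈ s, (-a P) • cQ c P.1) = -∑ P ∈ s, a P • cQ c P.1 := by
        rw [← Finset.sum_neg_distrib]
        exact Finset.sum_congr rfl fun P _ => neg_smul _ _
      rw [h1]
      exact (congrArg Neg.neg ha).trans neg_zero
  -- the greatest multiple
  obtain ⟨s', hs'⟩ : ∃ s', s' = s.filter fun P => D P.1 < 0 := ⟨_, rfl⟩
  have hs'n : s'.Nonempty := ⟨j0, by rw [hs', Finset.mem_filter]; exact ⟨hj0, hj0n⟩⟩
  obtain ⟨P₁, hP₁, hmin⟩ := s'.exists_min_image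
    (fun P => Ev lam Hy q m₁ g P.1 / -(D P.1)) hs'n
  rw [hs', Finset.mem_filter] at hP₁
  obtain ⟨t, ht⟩ : ∃ t : ℚ, t = Ev lam Hy q m₁ g P₁.1 / -(D P₁.1) := ⟨_, rfl⟩
  have ht0 : 0 ≤ t := by
    rw [ht]
    exact div_nonneg (hg.2 P₁.1 P₁.2.1) (by linarith [hP₁.2])
  have htP : Ev lam Hy q m₁ g P₁.1 + t * D P₁.1 = 0 := by
    rw [ht]
    have : D P₁.1 ≠ 0 := hP₁.2.ne
    field_simp
    ring
  have htQ : ∀ Q, IsPrimeDivisor y Q → 0 ≤ Ev lam Hy q m₁ g Q + t * D Q := by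
    intro Q hQ
    rcases lt_or_ge (D Q) 0 with h | h
    · obtain ⟨P, hP, rfl⟩ := hDn Q h.ne
      have h1 := hmin P (by rw [hs', Finset.mem_filter]; exact ⟨hP, h⟩)
      rw [← ht] at h1
      rw [le_div_iff₀ (by linarith)] at h1
      linarith
    · have h1 := mul_nonneg ht0 h
      have h2 := hg.2 Q hQ
      linarith
  -- the sections
  obtain ⟨ε, hε, hbs⟩ := P₁.2.2
  obtain ⟨C, hC⟩ := small_triv hy hn hn0 hc hi hHe hHP (D := fun Q => -(t * D Q))
    (by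
      have h1 := hDf.smul (-t)
      refine h1.subset ?_
      rintro P ⟨hP, h0⟩
      refine ⟨hP, fun h => h0 ?_⟩
      change -(t * D P) = 0
      change -t * D P = 0 at h
      linarith)
    (by
      have h1 : cls y (cQ c) (fun Q => -(t * D Q)) = cls y (cQ c) (fun Q => (-t) * D Q) :=
        cls_congr fun P _ => by ring
      rw [h1, cls_smul, hD0, smul_zero]) P₁.2.1
  obtain ⟨e₂, he₂⟩ : ∃ e₂ : ℚ, e₂ = Ev lam Hy (2 * q) m₂ g₂ P₁.1 := ⟨_, rfl⟩
  have hm₁' : (1 : ℚ) ≤ m₁ := by exact_mod_cast hm₁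
  have hm₂' : (1 : ℚ) ≤ m₂ := by exact_mod_cast hm₂
  obtain ⟨k, hk⟩ := exists_nat_gt (|C| + |e₂| + (|C| + |e₂|) / ε)
  have hk0 : 1 ≤ k := by
    rcases Nat.eq_zero_or_pos k with h | h
    · subst h
      have h1 := abs_nonneg C
      have h2 := abs_nonneg e₂
      have h3 : 0 ≤ (|C| + |e₂|) / ε := by positivity
      simp only [Nat.cast_zero] at hk
      linarith
    · exact h
  obtain ⟨m, hm, f, hf, hfQ, hfP⟩ := hC k hk0
  have hm' : (1 : ℚ) ≤ m := by exact_mod_cast hm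
  have hk' : (1 : ℚ) ≤ k := by exact_mod_cast hk0
  obtain ⟨G, hG⟩ : ∃ G : K, G = g ^ (m * k * m₂) * f ^ m₂ * g₂ ^ m := ⟨_, rfl⟩
  have hG0 : G ≠ 0 := by
    rw [hG]
    exact mul_ne_zero (mul_ne_zero (pow_ne_zero _ hg.1) (pow_ne_zero _ hf))
      (pow_ne_zero _ hg₂.1)
  have hev : ∀ Q, Ev lam Hy q (m * m₂ * (k * m₁ + 2)) G Q =
      m * k * m₂ * (Ev lam Hy q m₁ g Q + t * D Q) +
        m₂ * ((Q.ord f : ℚ) + m * (k * -(t * D Q) + Hy Q)) +
        m * Ev lam Hy (2 * q) m₂ g₂ Q := by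
    intro Q
    unfold Ev
    rw [hG, Q.ord_mul (mul_ne_zero (pow_ne_zero _ hg.1) (pow_ne_zero _ hf))
      (pow_ne_zero _ hg₂.1), Q.ord_mul (pow_ne_zero _ hg.1) (pow_ne_zero _ hf), Q.ord_pow,
      Q.ord_pow, Q.ord_pow]
    push_cast
    ring
  have hM1 : 1 ≤ m * m₂ * (k * m₁ + 2) :=
    Nat.mul_pos (Nat.mul_pos hm hm₂) (by omega)
  have hGs : G ∈ Sec y lam Hy q (m * m₂ * (k * m₁ + 2)) := by
    refine ⟨hG0, fun Q hQ => ?_⟩
    rw [hev]
    have h1 := mul_nonneg (by positivity : (0 : ℚ) ≤ m * k * m₂) (htQ Q hQ)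
    have h2 := mul_nonneg (by positivity : (0 : ℚ) ≤ m₂) (hfQ Q hQ)
    have h3 := mul_nonneg (by positivity : (0 : ℚ) ≤ m) (hg₂.2 Q hQ)
    linarith
  have h1 := hbs _ hM1 G hGs
  rw [hev, htP, mul_zero, zero_add, ← he₂] at h1
  push_cast at h1
  have h2 : (m₂ : ℚ) * ((P₁.1.ord f : ℚ) + m * (k * -(t * D P₁.1) + Hy P₁.1)) ≤ m₂ * (C * m) :=
    mul_le_mul_of_nonneg_left hfP (by linarith)
  have h3 : (m : ℚ) * (ε * (m₂ * (k * m₁ + 2))) ≤ m * (m₂ * C + e₂) := by linarith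
  have h4 := le_of_mul_le_mul_left h3 (by linarith)
  have h5 : (m₂ : ℚ) * C + e₂ ≤ m₂ * (|C| + |e₂|) := by
    have h6 := le_abs_self C
    have h7 := le_abs_self e₂
    have h8 := abs_nonneg e₂
    nlinarith
  have h6 : (m₂ : ℚ) * (ε * k) ≤ m₂ * (|C| + |e₂|) := by
    refine le_trans ?_ (h4.trans h5)
    have h7 : (k : ℚ) ≤ k * m₁ + 2 := by nlinarith
    have h8 : ε * (k : ℚ) ≤ ε * (k * m₁ + 2) := mul_le_mul_of_nonneg_left h7 hε.le
    calc (m₂ : ℚ) * (ε * k) ≤ m₂ * (ε * (k * m₁ + 2)) :=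
          mul_le_mul_of_nonneg_left h8 (by linarith)
      _ = _ := by ring
  have h7 := le_of_mul_le_mul_left h6 (by linarith)
  have h8 : (|C| + |e₂|) / ε < k := by
    have h9 := abs_nonneg C
    have h10 := abs_nonneg e₂
    linarith
  rw [div_lt_iff₀ hε] at h8
  linarith

end

end Run7.h528.NN
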