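import Pool.Agent.Run7.h528.NN.Core
import Pool.Agent.Run7.h528.NN.Defs
import Pool.Agent.N110.NV.CT
import Pool.Agent.N110.DV.Main
import Pool.Agent.N618.CC.PSCL

/-!
Pseudo-effective divisors of numerical dimension zero are numerically equivalent to exactly one
effective divisor.
-/

set_option autoImplicit false
set_option linter.overlappingInstances false
set_option linter.unusedSectionVars false

open FF Module Pool.Agent.W602.GT Pool.Agent.Y172 Pool.Agent.R887 Pool.Agent.N110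
open Pool.Agent.N110.NV Pool.Agent.N492.PA Pool.Agent.N110.CC Pool.Agent.N110.DV

namespace Run7.h528.NN

section

variable {K : Type} [Field K] [Algebra ℂ K] {N n ρ : ℕ} {y : Fin (N + 1) → K}
  {c : Place ℂ K → Fin ρ → ℤ} {L : Place ℂ K → ℚ}

theorem fin_neg' {L : Place ℂ K → ℚ} (hL : Fin0 y L) : Fin0 y (fun P => -L P) := by
  refine Set.Finite.subset (s := {P | IsPrimeDivisor y P ∧ L P ≠ 0}) hL ?_
  rintro P ⟨h1, h2⟩
  exact ⟨h1, fun h3 => h2 (by change -L P = 0; rw [h3, neg_zero])⟩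

theorem cls_neg' {c : Place ℂ K → Fin ρ → ℚ} (L : Place ℂ K → ℚ) :
    cls y c (fun P => -L P) = -cls y c L := by
  have h := cls_smul (y := y) (c := c) (r := -1) L
  rw [neg_one_smul] at h
  rw [← h]
  exact cls_congr fun P _ => by ring

/-- numerically trivial divisors have the class zero -/
theorem cls_zero_of (hy : NormalModel y) (hc : NumClasses y c) (hL : Fin0 y L)
    (h1 : PsefD y L) (h2 : PsefD y (fun P => -L P)) : cls y (cQ c) L = 0 := by
  have h3 := Pool.Agent.N618.CC.leafPSCL K N ρ y hy (cQ c) hc.principal L hL h1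
  have h4 := Pool.Agent.N618.CC.leafPSCL K N ρ y hy (cQ c) hc.principal _ (fin_neg' hL) h2
  rw [cls_neg'] at h4
  have h5 : toR (-cls y (cQ c) L) = -toR (cls y (cQ c) L) := by
    funext i
    simp [toR]
  rw [h5] at h4
  have h6 := hc.salient _ h3 h4
  funext i
  have h7 := congrFun h6 i
  have h8 : ((cls y (cQ c) L i : ℚ) : ℝ) = 0 := h7
  exact_mod_cast h8

/-- divisors with the class zero are numerically trivial -/
theorem psef_of_zero' (hc : NumClasses y c) (hL : Fin0 y L) (h0 : cls y (cQ c) L = 0) :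
    PsefD y L := fun i hi q hq => hc.trivial L hL h0 i hi q hq

/-- the sections of the multiples of `q L + H` -/
theorem sec_iff {Hy : Place ℂ K → ℚ} {q m : ℕ} {g : K} :
    g ∈ Sec y L Hy q m ↔ g ≠ 0 ∧ SecD y ((m * q) • L + m • Hy) g := by
  constructor
  · rintro ⟨h0, h1⟩
    refine ⟨h0, fun P hP => Or.inr ?_⟩
    have h2 := h1 P hP
    unfold Ev at h2
    rw [Pi.add_apply, Pi.smul_apply, Pi.smul_apply, nsmul_eq_mul, nsmul_eq_mul]
    push_cast
    linarith
  · rintro ⟨h0, h1⟩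
    refine ⟨h0, fun P hP => ?_⟩
    have h2 := (h1 P hP).resolve_left h0
    unfold Ev
    rw [Pi.add_apply, Pi.smul_apply, Pi.smul_apply, nsmul_eq_mul, nsmul_eq_mul] at h2
    push_cast at h2
    linarith

/-- **Divisors of numerical dimension zero.** -/
theorem num_effD (hy : NormalModel y) (hn : Algebra.trdeg ℂ K = n) (hn0 : 0 < n)
    (hc : NumClasses y c) (hL : Fin0 y L) (hps : PsefD y L) (hnum : NuLt y n L 1) :
    ∃ D : Place ℂ K → ℚ, Effective y D ∧ NumEqD y L D ∧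
      (∀ D', Effective y D' → NumEqD y L D' → ∀ P, IsPrimeDivisor y P → D' P = D P) ∧
      (NefD y n L → ∀ P, IsPrimeDivisor y P → D P = 0) := by
  classical
  obtain ⟨i, hi⟩ := hy.ne
  obtain ⟨Hy, hHy, hHP⟩ := exists_hyp hy hi
  have hF2 : ∀ q : ℕ, 1 ≤ q → ∃ m : ℕ, 1 ≤ m ∧ ∃ g, g ∈ Sec y L Hy q m := by
    intro q hq
    obtain ⟨m, hm, f, hf, h1⟩ := hps i hi q hq
    refine ⟨m, hm, f, hf, fun P hP => ?_⟩
    obtain ⟨l, hl⟩ := exists_centred hy P
    have h2 := h1 P l hP hl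
    unfold Ev
    rw [hHP P l hP hl]
    exact h2
  obtain ⟨b, hb0, hbf, hbc, q₁, hq₁, hbB⟩ := coreN ct lim rat hy hn hn0 hi hL hHy hHP
    (c := cQ c) hc.principal hc.salient (fun q hq => by
      obtain ⟨m₁, hm₁, g, hg⟩ := hF2 q hq
      obtain ⟨m₂, hm₂, g₂, hg₂⟩ := hF2 (2 * q) (by omega)
      exact bs_indepN hy hn hn0 hc hi hHy hHP hm₁ hg hm₂ hg₂) hF2 (fun ε hε => by
    obtain ⟨t, ht, m₀, h1⟩ := hnum Hy hHy ε hε
    obtain ⟨q₀, hq₀⟩ := exists_nat_gt (1 / t)
    refine ⟨max m₀ q₀, fun q m hq hm g₀ hg₀ g₁ hg₁ u hu => ?_⟩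
    have hq1 : m₀ ≤ q := (le_max_left _ _).trans hq
    have hq2 : (q₀ : ℝ) ≤ q := by exact_mod_cast (le_max_right _ _).trans hq
    have hm' : (1 : ℝ) ≤ m := by exact_mod_cast hm
    have h2 : m₀ ≤ m * q := by nlinarith
    have h3 : ((m : ℕ) : ℝ) ≤ t * ((m * q : ℕ) : ℝ) := by
      rw [div_lt_iff₀ ht] at hq₀
      push_cast
      have h4 : 1 ≤ (q : ℝ) * t := by nlinarith
      nlinarith
    have h4 := h1 (m * q) m h2 h3 u hu (![g₀, g₁] : Fin 2 → K) (fun j => by
      fin_cases j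
      · exact (sec_iff.1 hg₀).2
      · exact (sec_iff.1 hg₁).2) hg₀.1
    rw [pow_one] at h4
    push_cast at h4
    refine le_trans (le_of_eq ?_) h4
    congr 2
    funext j
    fin_cases j
    rfl)
  have hLb : Fin0 y (fun P => L P - b P) := hL.sub hbf
  have hcls : cls y (cQ c) (fun P => L P - b P) = 0 := by
    rw [cls_sub hL hbf, hbc, sub_self]
  refine ⟨b, ⟨fun P _ => hb0 P, hbf⟩, ⟨psef_of_zero' hc hLb hcls, psef_of_zero' hc
    (fin_neg' hLb) (by rw [cls_neg', hcls, neg_zero])⟩, ?_, ?_⟩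
  · intro D' hD' hE P hP
    have hD'f : Fin0 y D' := hD'.2
    obtain ⟨Z, hZ⟩ : ∃ Z : Place ℂ K → ℚ, Z = fun P => D' P - b P := ⟨_, rfl⟩
    have hZf : Fin0 y Z := by
      rw [hZ]
      exact hD'f.sub hbf
    have hZc : cls y (cQ c) Z = 0 := by
      have h1 := cls_zero_of hy hc (hL.sub hD'f) hE.1 hE.2
      rw [cls_sub hL hD'f] at h1
      rw [hZ, cls_sub hD'f hbf, hbc, sub_eq_zero.1 h1, sub_self]
    by_contra hne
    -- a negative coefficient
    obtain ⟨P₀, hP₀, hP₀n⟩ : ∃ P₀, IsPrimeDivisor y P₀ ∧ Z P₀ < 0 := by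
      by_contra hcon
      push Not at hcon
      obtain ⟨κ, hκ, hbd⟩ := coef_bd hy hn hn0 hc hP
      have h1 := hbd Z ⟨hcon, hZf⟩
      rw [hZc] at h1
      have h2 : toR (0 : Fin ρ → ℚ) = 0 := by
        funext j
        simp [toR]
      rw [h2, norm_zero, mul_zero] at h1
      have h3 : Z P ≤ 0 := by exact_mod_cast h1
      have h4 := hcon P hP
      apply hne
      rw [hZ] at h3 h4
      have h5 : D' P - b P ≤ 0 := h3
      have h6 : 0 ≤ D' P - b P := h4
      linarith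
    obtain ⟨s, hs⟩ : ∃ s : Finset (Place ℂ K), s = hZf.toFinset.filter fun P => Z P < 0 :=
      ⟨_, rfl⟩
    have hsm : ∀ Q, Q ∈ s ↔ IsPrimeDivisor y Q ∧ Z Q < 0 := by
      intro Q
      rw [hs, Finset.mem_filter, Set.Finite.mem_toFinset]
      constructor
      · rintro ⟨⟨h1, -⟩, h2⟩
        exact ⟨h1, h2⟩
      · rintro ⟨h1, h2⟩
        exact ⟨⟨h1, h2.ne⟩, h2⟩
    obtain ⟨P₁, hP₁, hmin⟩ := s.exists_min_image (fun Q => b Q / -(Z Q))
      ⟨P₀, (hsm P₀).2 ⟨hP₀, hP₀n⟩⟩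
    rw [hsm] at hP₁
    obtain ⟨t, ht⟩ : ∃ t : ℚ, t = b P₁ / -(Z P₁) := ⟨_, rfl⟩
    have ht0 : 0 ≤ t := by
      rw [ht]
      exact div_nonneg (hb0 P₁) (by linarith [hP₁.2])
    have htP : b P₁ + t * Z P₁ = 0 := by
      rw [ht]
      have : Z P₁ ≠ 0 := hP₁.2.ne
      field_simp
      ring
    have htQ : ∀ Q, IsPrimeDivisor y Q → 0 ≤ b Q + t * Z Q := by
      intro Q hQ
      rcases lt_or_ge (Z Q) 0 with h | h
      · have h1 := hmin Q ((hsm Q).2 ⟨hQ, h⟩)
        rw [← ht] at h1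
        rw [le_div_iff₀ (by linarith)] at h1
        linarith
      · have h1 := mul_nonneg ht0 h
        have h2 := hb0 Q
        linarith
    have hb1 : b P₁ ≠ 0 := by
      intro h0
      have h1 := hP₁.2
      rw [hZ] at h1
      have h2 : D' P₁ - b P₁ < 0 := h1
      have h3 := hD'.1 P₁ hP₁.1
      rw [h0] at h2
      linarith
    obtain ⟨-, ε, hε, hbs⟩ := hbB q₁ le_rfl P₁ hb1
    -- the sections
    have hWf : Fin0 y (fun Q => L Q - (b Q + t * Z Q)) :=
      hL.sub (Fin0.add (y := y) hbf (hZf.smul t))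
    obtain ⟨C, hC⟩ := small_triv hy hn hn0 hc hi hHy hHP hWf (by
      rw [cls_sub hL (Fin0.add (y := y) hbf (hZf.smul t)), cls_add hbf (hZf.smul t), cls_smul,
        hZc, smul_zero, add_zero, hbc, sub_self]) hP₁.1
    obtain ⟨j, hj⟩ := exists_nat_gt (|C| / ε)
    have hj' : |C| < ε * (j + 1) := by
      rw [div_lt_iff₀ hε] at hj
      nlinarith
    obtain ⟨m, hm, f, hf, hfQ, hfP⟩ := hC (q₁ * (j + 1)) (Nat.mul_pos hq₁ (Nat.succ_pos j))
    obtain ⟨l, hl⟩ := exists_centred hy P₁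
    have hly : y l / y i ≠ 0 := div_ne_zero hl.1 hi
    have hev : ∀ Q, Ev L Hy q₁ (m * (j + 1)) (f * (y l / y i) ^ (m * j)) Q =
        ((Q.ord f : ℚ) + m * (((q₁ * (j + 1) : ℕ) : ℚ) * (L Q - (b Q + t * Z Q)) + Hy Q)) +
          m * (q₁ * (j + 1)) * (b Q + t * Z Q) + m * j * (Q.ord (y l / y i) + Hy Q) := by
      intro Q
      unfold Ev
      rw [Q.ord_mul hf (pow_ne_zero _ hly), Q.ord_pow]
      push_cast
      ring
    have h1 := hbs (m * (j + 1)) (Nat.mul_pos hm (Nat.succ_pos j)) (f * (y l / y i) ^ (m * j))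
      ⟨mul_ne_zero hf (pow_ne_zero _ hly), fun Q hQ => by
        rw [hev]
        have h2 := hfQ Q hQ
        have h3 := mul_nonneg (by positivity : (0 : ℚ) ≤ m * (q₁ * (j + 1))) (htQ Q hQ)
        have h4 := (ord_coord hy hi hHP hQ hl.1).1
        have h5 := mul_nonneg (by positivity : (0 : ℚ) ≤ m * j)
          (show 0 ≤ (Q.ord (y l / y i) : ℚ) + Hy Q by linarith)
        linarith⟩
    rw [hev, htP, ← (ord_coord hy hi hHP hP₁.1 hl.1).2 hl] at h1
    rw [htP] at hfP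
    have hm' : (0 : ℚ) < m := by exact_mod_cast hm
    push_cast at h1 hfP
    have h2 : (m : ℚ) * (ε * (j + 1)) ≤ m * C := by linarith
    have h3 := le_of_mul_le_mul_left h2 hm'
    have h4 := le_abs_self C
    linarith
  · intro hnef P hP
    by_contra hne
    obtain ⟨-, ε, hε, hbs⟩ := hbB q₁ le_rfl P hne
    obtain ⟨m, hm, h1⟩ := hnef i hi q₁ hq₁
    obtain ⟨g, hg0, h2, h3⟩ := h1 P (hP.divisorial hy hn)
    have h4 := hbs m hm g ⟨hg0, fun Q hQ => by
      obtain ⟨l, hl⟩ := exists_centred hy Q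
      have h5 := h2 Q l hQ hl
      unfold Ev
      rw [hHP Q l hQ hl]
      linarith⟩
    obtain ⟨l, hl⟩ := exists_centred hy P
    have h5 := h3 P l hP (fun f hf => localRing_reg hf) hl
    unfold Ev at h4
    rw [hHP P l hP hl, h5] at h4
    have hm' : (0 : ℚ) < m := by exact_mod_cast hm
    have h6 := mul_pos hε hm'
    linarith

end

end Run7.h528.NN
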