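import Pool.Agent.N110.Conv
import Pool.Agent.N110.NV.Lim
import Pool.Agent.N110.PA.NDefs
import Pool.Agent.N110.NV.Fix

/-!
The order of a section of `m H` along a prime divisor is at most `C m`; the numerical class of a prime
divisor is not zero; the coefficients of effective divisors are bounded by the norms of their classes.
-/

set_option autoImplicit false
set_option linter.overlappingInstances false
set_option linter.unusedSectionVars false

open FF Module Pool.Agent.W602.GT Pool.Agent.Y172 Pool.Agent.R887 Pool.Agent.N110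
open Pool.Agent.N110.NV

namespace Run7.h528.NN

section

variable {K : Type} [Field K] [Algebra ℂ K] {N n : ℕ} {y : Fin (N + 1) → K}

/-- the order of a section of `m H` along a prime divisor is at most `C m` -/
theorem ord_bd (hy : NormalModel y) (hn : Algebra.trdeg ℂ K = n) (hn0 : 0 < n)
    {i : Fin (N + 1)} (hi : y i ≠ 0) {P : Place ℂ K} (hP : IsPrimeDivisor y P) :
    ∃ C : ℕ, ∀ (m : ℕ) (f : K), f ≠ 0 → (∀ Q l, IsPrimeDivisor y Q → Centred y l Q →
      0 ≤ Q.ord f + m * Q.ord (y i / y l)) → P.ord f ≤ C * m := by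
  classical
  have hess := hy.ess
  obtain ⟨u, hu, huP⟩ := exists_pencils (n := n) hy.ne (Set.finite_singleton P)
    (fun Q hQ => by rw [Set.mem_singleton_iff.1 hQ]; exact hP)
    (fun Q hQ => by rw [Set.mem_singleton_iff.1 hQ]; exact hP.divisorial hy hn)
  have hind := huP P rfl
  obtain ⟨C, hC⟩ := bez hy hn hi
  refine ⟨C, fun m f hf0 hf => ?_⟩
  by_cases hpos : 0 < P.ord f
  swap
  · have : (0 : ℤ) ≤ C * m := by positivity
    omega
  have h1 : -P.ord f⁻¹ ≤ degreeOver u (fun _ : Fin 1 => f⁻¹) := by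
    refine deg_ge hn hn0 hind ?_
    rw [P.ord_inv]
    omega
  rw [P.ord_inv, neg_neg] at h1
  have hc1 : (toM u).card + 1 = n := by
    rw [toM_card]
    omega
  have h2 : degreeOver u (fun _ : Fin 1 => f⁻¹) = dm ℂ ((1 / f) ::ₘ toM u) := by
    rw [← Multiset.singleton_add, add_comm, one_div]
    refine deg_dm (toM_set u) ?_
    ext x
    simp only [Multiset.mem_singleton, Set.mem_range, exists_const]
    exact eq_comm
  have hb0 : Bnd ℂ (affS y i) m f := bnd_prime hy hi hf0 fun Q hQ l hl => hf Q l hQ hl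
  have hb1 : Bnd ℂ (affS y i) m 1 := fun Q => ⟨1, one_affS hi, one_ne_zero, by
    rw [Q.ord_one, mul_zero]⟩
  obtain ⟨v, hv, hle⟩ := repl hn (fin_affS (y := y) i) (one_affS hi) hf0 hb0 hb1 hc1
  obtain ⟨Q', hQ', hle'⟩ := replace_pencils' hy hn hi (toM u) {v} (by
    rw [Multiset.card_add, toM_card, Multiset.card_singleton]
    omega) (fun z hz => by
      obtain ⟨j, rfl⟩ := mem_toM.1 hz
      exact hu j)
  rw [sel_rep] at hQ'
  have h3 : dm ℂ (Q' + {v}) ≤ C := by
    refine hC _ ?_ fun x hx => ?_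
    · rw [Multiset.card_add, hQ'.1, Multiset.card_singleton]
      exact hc1
    · rcases Multiset.mem_add.1 hx with h4 | h4
      · exact hQ'.2 x h4
      · rw [Multiset.mem_singleton.1 h4]
        exact hv
  have h4 : dm ℂ (v ::ₘ toM u) = dm ℂ (toM u + {v}) := by
    rw [← Multiset.singleton_add, add_comm]
  rw [h2] at h1
  rw [h4] at hle
  have h5 : dm ℂ ((1 / f) ::ₘ toM u) ≤ m * C := hle.trans (Nat.mul_le_mul_left _ (hle'.trans h3))
  have h6 : ((dm ℂ ((1 / f) ::ₘ toM u) : ℕ) : ℤ) ≤ ((m * C : ℕ) : ℤ) := by exact_mod_cast h5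
  push_cast at h6
  linarith

end

end Run7.h528.NN
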