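import Pool.Agent.Run7.h528.NN.Ord
import Pool.Agent.N492.PA.Mat

/-!
Numerical classes: the class of a prime divisor is not zero, and the effective divisors which show
that a numerically trivial divisor is pseudo-effective have small coefficients.
-/

set_option autoImplicit false
set_option linter.overlappingInstances false
set_option linter.unusedSectionVars false

open FF Module Pool.Agent.W602.GT Pool.Agent.Y172 Pool.Agent.R887 Pool.Agent.N110
open Pool.Agent.N110.NV Pool.Agent.N492.PA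

namespace Run7.h528.NN

section

variable {K : Type} [Field K] [Algebra ℂ K] {N n ρ : ℕ} {y : Fin (N + 1) → K}
  {c : Place ℂ K → Fin ρ → ℤ} {Hy : Place ℂ K → ℚ}

/-- the numerical class of a prime divisor is not zero -/
theorem cP_ne (hy : NormalModel y) (hn : Algebra.trdeg ℂ K = n) (hn0 : 0 < n)
    (hc : NumClasses y c) {P : Place ℂ K} (hP : IsPrimeDivisor y P) : cQ c P ≠ 0 := by
  classical
  intro h0
  obtain ⟨i, hi⟩ := hy.ne
  obtain ⟨C, hC⟩ := ord_bd hy hn hn0 hi hP
  obtain ⟨l, hl⟩ := exists_centred hy P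
  have hcls : cls y (cQ c) (fun Q => if Q = P then -1 else 0) = 0 := by
    rw [cls_single hP, h0, smul_zero]
  obtain ⟨q, hq⟩ := exists_nat_gt (C + |(P.ord (y i / y l) : ℚ)|)
  have hq0 : 1 ≤ q := by
    rcases Nat.eq_zero_or_pos q with h | h
    · subst h
      have h1 : (0 : ℚ) ≤ C := Nat.cast_nonneg _
      have h2 := abs_nonneg (P.ord (y i / y l) : ℚ)
      simp only [Nat.cast_zero] at hq
      linarith
    · exact h
  obtain ⟨m, hm, f, hf, h1⟩ := hc.trivial _ (fin_single P (-1)) hcls i hi q hq0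
  have h2 := hC m f hf fun Q l hQ hl => by
    have h3 := h1 Q l hQ hl
    have h4 : (q : ℚ) * (if Q = P then -1 else 0) ≤ 0 := by
      split_ifs
      · have : (0 : ℚ) ≤ q := Nat.cast_nonneg _
        linarith
      · rw [mul_zero]
    have h5 : (0 : ℚ) ≤ Q.ord f + m * Q.ord (y i / y l) := by
      have h6 : (0 : ℚ) ≤ m := Nat.cast_nonneg _
      have h7 := mul_le_mul_of_nonneg_left h4 h6
      rw [mul_zero] at h7
      linarith
    exact_mod_cast h5
  have h3 := h1 P l hP hl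
  rw [if_pos rfl] at h3
  have h4 : (P.ord f : ℚ) ≤ C * m := by exact_mod_cast h2
  have h5 : (1 : ℚ) ≤ m := by exact_mod_cast hm
  have h6 := le_abs_self (P.ord (y i / y l) : ℚ)
  have h7 : (m : ℚ) * q ≤ m * (C + |(P.ord (y i / y l) : ℚ)|) := by
    have h8 : (m : ℚ) * (P.ord (y i / y l) : ℚ) ≤ m * |(P.ord (y i / y l) : ℚ)| :=
      mul_le_mul_of_nonneg_left h6 (by linarith)
    linarith
  have h8 := le_of_mul_le_mul_left h7 (by linarith)
  linarith

/-- the coefficients of an effective divisor are bounded by the norm of its class -/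
theorem coef_bd (hy : NormalModel y) (hn : Algebra.trdeg ℂ K = n) (hn0 : 0 < n)
    (hc : NumClasses y c) {P : Place ℂ K} (hP : IsPrimeDivisor y P) :
    ∃ κ : ℝ, 0 < κ ∧ ∀ D : Place ℂ K → ℚ, Effective y D →
      (D P : ℝ) ≤ κ * ‖toR (cls y (cQ c) D)‖ := by
  classical
  obtain ⟨a, ha, hab⟩ := salient_bound (closure (effSet y (cQ c))) isClosed_closure
    (fun x hx r hr => clo_smul hx hr) hc.salient
  have hne : 0 < ‖toR (cQ c P)‖ := by
    rw [norm_pos_iff]
    intro h0
    apply cP_ne hy hn hn0 hc hP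
    funext j
    have h1 := congrFun h0 j
    have h2 : ((cQ c P j : ℚ) : ℝ) = 0 := h1
    exact_mod_cast h2
  refine ⟨1 / (a * ‖toR (cQ c P)‖), by positivity, fun D hD => ?_⟩
  have hs : Effective y (fun Q => if Q = P then D P else 0) := by
    refine ⟨fun Q hQ => ?_, fin_single P _⟩
    change 0 ≤ (if Q = P then D P else 0)
    split_ifs
    · exact hD.1 P hP
    · exact le_rfl
  have hr : Effective y (fun Q => D Q - if Q = P then D P else 0) := by
    refine ⟨fun Q hQ => ?_, Fin0.sub (y := y) hD.2 (fin_single P _)⟩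
    change 0 ≤ D Q - (if Q = P then D P else 0)
    split_ifs with h
    · rw [h, sub_self]
    · rw [sub_zero]
      exact hD.1 Q hQ
  have h1 := hab _ (subset_closure (eff_mem hs)) _ (subset_closure (eff_mem hr))
  rw [← toR_add, cls_sub hD.2 (fin_single P _), add_sub_cancel, cls_single hP, toR_smul,
    norm_smul, Real.norm_of_nonneg (by exact_mod_cast hD.1 P hP)] at h1
  rw [div_mul_eq_mul_div, one_mul, le_div_iff₀ (by positivity)]
  linarith

/-- a numerically trivial divisor is the limit of effective divisors with small coefficients -/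
theorem small_triv (hy : NormalModel y) (hn : Algebra.trdeg ℂ K = n) (hn0 : 0 < n)
    (hc : NumClasses y c) {i : Fin (N + 1)} (hi : y i ≠ 0) (hHe : Effective y Hy)
    (hHP : ∀ P l, IsPrimeDivisor y P → Centred y l P → Hy P = P.ord (y i / y l))
    {D : Place ℂ K → ℚ} (hD : Fin0 y D) (h0 : cls y (cQ c) D = 0) {P : Place ℂ K}
    (hP : IsPrimeDivisor y P) : ∃ C : ℚ, ∀ k : ℕ, 1 ≤ k → ∃ m : ℕ, 1 ≤ m ∧ ∃ f : K, f ≠ 0 ∧
      (∀ Q, IsPrimeDivisor y Q → 0 ≤ (Q.ord f : ℚ) + m * (k * D Q + Hy Q)) ∧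
      (P.ord f : ℚ) + m * (k * D P + Hy P) ≤ C * m := by
  classical
  obtain ⟨κ, hκ, hbd⟩ := coef_bd hy hn hn0 hc hP
  obtain ⟨C, hC⟩ := exists_nat_gt (κ * ‖toR (cls y (cQ c) Hy)‖)
  refine ⟨C, fun k hk => ?_⟩
  obtain ⟨m, hm, f, hf, h1⟩ := hc.trivial D hD h0 i hi k hk
  have hpos : ∀ Q, IsPrimeDivisor y Q → 0 ≤ (Q.ord f : ℚ) + m * (k * D Q + Hy Q) := by
    intro Q hQ
    obtain ⟨l, hl⟩ := exists_centred hy Q
    rw [hHP Q l hQ hl]
    exact h1 Q l hQ hl
  refine ⟨m, hm, f, hf, hpos, ?_⟩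
  have hm0 : (0 : ℚ) < m := by exact_mod_cast hm
  have hof : Fin0 y (fun Q => (Q.ord f : ℚ)) := by
    refine (finite_ord hy hf).subset ?_
    rintro Q ⟨hQ, h2⟩
    refine ⟨hQ, fun h3 => h2 ?_⟩
    change ((Q.ord f : ℤ) : ℚ) = 0
    rw [h3]
    simp
  have hfin : Fin0 y (fun Q => (Q.ord f : ℚ) + m * (k * D Q + Hy Q)) :=
    Fin0.add (y := y) hof (Fin0.smul (Fin0.add (y := y) (hD.smul k) hHe.2) m)
  have hN : Effective y (fun Q => (1 / (m : ℚ)) * ((Q.ord f : ℚ) + m * (k * D Q + Hy Q))) :=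
    ⟨fun Q hQ => mul_nonneg (by positivity) (hpos Q hQ), hfin.smul _⟩
  have h2 := hbd _ hN
  have h3 : cls y (cQ c) (fun Q => (1 / (m : ℚ)) * ((Q.ord f : ℚ) + m * (k * D Q + Hy Q))) =
      cls y (cQ c) Hy := by
    rw [cls_smul, cls_add hof (Fin0.smul (Fin0.add (y := y) (hD.smul k) hHe.2) m),
      show cls y (cQ c) (fun Q => (Q.ord f : ℚ)) = 0 from hc.principal f hf, zero_add, cls_smul,
      cls_add (hD.smul k) hHe.2, cls_smul,
      show cls y (cQ c) D = 0 from h0, smul_zero, zero_add, smul_smul, one_div,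
      inv_mul_cancel₀ hm0.ne', one_smul]
  rw [h3] at h2
  have h4 : (((1 / (m : ℚ)) * ((P.ord f : ℚ) + m * (k * D P + Hy P)) : ℚ) : ℝ) ≤ ((C : ℕ) : ℝ) :=
    h2.trans hC.le
  have h5 : (1 / (m : ℚ)) * ((P.ord f : ℚ) + m * (k * D P + Hy P)) ≤ C := by exact_mod_cast h4
  rw [div_mul_eq_mul_div, one_mul, div_le_iff₀ hm0] at h5
  exact h5

end

end Run7.h528.NN
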